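import Pool.Agent.MP_bced1d_lc.Lower

namespace Pool.Agent.Results.MP_bced1d_lc.SoficDegree

open Pool.Agent.MP_bced1d_lc

/-- the finite perfect group used as lamp group -/
abbrev KK : Type := alternatingGroup (Fin 5) × alternatingGroup (Fin 5)

lemma commutator_A5 : commutator (alternatingGroup (Fin 5)) = ⊤ :=
  commutator_alternatingGroup_eq_top (by simp)

lemma commutator_KK : commutator KK = ⊤ := by
  rw [commutator_def, ← Subgroup.top_prod_top, Subgroup.commutator_prod_prod]
  have h := commutator_A5
  rw [commutator_def] at h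
  rw [h, Subgroup.top_prod_top]

lemma comm_KK : ∀ κ : KK, κ ≠ 1 → ∃ κ', κ * κ' = κ' * κ ∧ κ' ≠ 1 ∧ κ' ≠ κ ∧ κ * κ' ≠ 1 := by
  rintro ⟨p, q⟩ h
  obtain ⟨u, hu⟩ := exists_ne (1 : alternatingGroup (Fin 5))
  by_cases hp : p = 1
  · subst hp
    have hq : q ≠ 1 := fun h' => h (by rw [h']; rfl)
    refine ⟨(u, 1), ?_, ?_, ?_, ?_⟩
    · simp
    · intro h'; exact hu (congrArg Prod.fst h')
    · intro h'; exact hu (congrArg Prod.fst h')
    · intro h'
      have := congrArg Prod.fst h'
      simp only [Prod.fst_mul, one_mul] at this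
      exact hu this
  · by_cases hq : q = 1
    · subst hq
      refine ⟨(1, u), ?_, ?_, ?_, ?_⟩
      · simp
      · intro h'; exact hu (congrArg Prod.snd h')
      · intro h'; exact hu (congrArg Prod.snd h')
      · intro h'
        have := congrArg Prod.snd h'
        simp only [Prod.snd_mul, one_mul] at this
        exact hu this
    · refine ⟨(p, 1), ?_, ?_, ?_, ?_⟩
      · simp
      · intro h'; exact hp (congrArg Prod.fst h')
      · intro h'; exact hq (congrArg Prod.snd h').symm
      · intro h'
        have := congrArg Prod.snd h'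
        simp only [Prod.snd_mul, mul_one] at this
        exact hq this

/-- **Result.** There are a finitely generated, recursively presented group `G` and a sofic
`G`-subshift `Y` whose Medvedev degree is not the degree of any `G`-SFT. -/
theorem result : ∃ (G : Type) (_ : Group G) (n : ℕ) (s : Fin n → G), RecPres s ∧
    ∃ (b : ℕ) (Y : Set (G → Fin b)), IsSofic Y ∧
      ∀ (a : ℕ) (X : Set (G → Fin a)), IsSFT X → ¬ SameDegree s X Y := by
  classical
  let _ : Primcodable KK := Primcodable.ofEquiv (Fin (Fintype.card KK)) (Fintype.equivFin KK)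
  let lam : Fin (Fintype.card (Option (Fin 12 × KK))) → Option (Fin 12 × KK) :=
    (Fintype.equivFin (Option (Fin 12 × KK))).symm
  have hlam : Function.Surjective lam := (Fintype.equivFin (Option (Fin 12 × KK))).symm.surjective
  refine ⟨↥(GG KK), inferInstance, _, sG lam, recPres_sG hlam, 6, Y0 KK, isSofic_Y0, ?_⟩
  rintro a X hX ⟨h1, h2⟩
  by_cases hH : ∃ x ∈ X, HInv x
  · obtain ⟨x, hx, hxH⟩ := hH
    obtain ⟨f, hf, hfc⟩ := computable_of_HInv lam hX hx hxH
    obtain ⟨f', hf', hfc'⟩ := h2.computable hf hfc
    exact no_computable_name commutator_KK comm_KK hlam hf' hfc'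
  · push Not at hH
    have h3 := medLE_DNR_names commutator_KK hlam hH
    exact not_medLE_DNR ((h3.trans h1).trans (medLE_names_Y0 lam))

end Pool.Agent.Results.MP_bced1d_lc.SoficDegree
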